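import Pool.Agent.FDia.Ext

/-!
# The diamond principle implies the continuum hypothesis
-/

universe u

set_option linter.unusedSectionVars false

namespace Pool.Agent.FDia

open Pool.Agent.SigB Pool.Agent.Forc Pool.Agent.Frc

theorem Diamond.ch {N : Type u} [Membership N N] [IsZFC N] (hD : Diamond N) : CH N := by
  intro o w p ho hw hp
  rw [isOmega_iff] at ho
  subst ho
  rw [isPower_iff] at hp
  subst hp
  rw [injects_iff]
  obtain ⟨hwo, hwn, hwc⟩ := isOmegaOne_iff.1 hw
  obtain ⟨A, q, hA, -, hG⟩ := hD w hw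
  rw [isMap_iff] at hA
  obtain ⟨hA1, hA2⟩ := mem_fs.1 hA
  have hmem : ∀ b : N, SigB.Ord b → Le b SigB.om → b ∈ w := by
    intro b hb hle
    rcases hb.tri hwo with h | h | h
    · exact h
    · exact absurd (h ▸ hle) hwn
    · exact absurd (hle.mono_left (hb.sb h)) hwn
  have homw : (SigB.om : N) ∈ w := hmem _ om_ord (Le.refl _)
  have hsc : ∀ b, b ∈ w → sc b ∈ w := fun b hb =>
    hmem _ (ord_sc (hwo.mem hb)) (le_om_un (hwc b hb) (le_om_pr b b))
  have hCd : Dfn (fun v : Fin 1 → N => (SigB.om : N) ∈ v 0) := by simp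
  -- the final segment is closed unbounded
  have hC : IsClub (sp w fun a => (SigB.om : N) ∈ a) w := by
    refine ⟨fun z hz => ((mem_sp hCd).1 hz).1, fun a ha => ?_, fun a ha hne h => ?_⟩
    · refine ⟨sc (un a (sc SigB.om)), (mem_sp hCd).2 ⟨hsc _ ?_, ?_⟩, ?_⟩
      · exact hmem _ (ord_un (hwo.mem ha) (ord_sc om_ord))
          (le_om_un (hwc a ha) (hwc _ (hsc _ homw)))
      · exact mem_sc.2 (Or.inl (mem_un.2 (Or.inr (mem_sc_self _))))
      · have h1 : SigB.Ord (un a (sc (SigB.om : N))) := ord_un (hwo.mem ha) (ord_sc om_ord)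
        exact (Ord.mem_sc_iff (hwo.mem ha) h1).2 fun z hz => mem_un.2 (Or.inl hz)
    · obtain ⟨b, hb⟩ := hne
      obtain ⟨c, hc, hca, -⟩ := h b hb
      exact (mem_sp hCd).2 ⟨ha, (hwo.mem ha).trans ((mem_sp hCd).1 hc).2 hca⟩
  obtain ⟨f, hf, hfv⟩ := choice' (a := pw (SigB.om : N)) (b := w) (P := fun X a => ap A a = X)
    (by simp (maxDischargeDepth := 50)) (by
      intro X hX
      rw [mem_pw] at hX
      obtain ⟨a, Y, ha, hAY, hY⟩ := hG X _ (fun z hz => hwo.trans (hX z hz) homw) hC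
      obtain ⟨haw, hoa⟩ := (mem_sp hCd).1 ha
      refine ⟨a, haw, ?_⟩
      rw [(hA1.op_mem_iff haw).1 (val_iff.1 hAY)]
      refine ext' fun z => ?_
      rw [hY]
      exact ⟨fun h => h.1, fun h => ⟨h, (hwo.mem haw).trans (hX z h) hoa⟩⟩)
  exact ⟨f, hf, fun X Y hX hY he => by rw [← hfv X hX, ← hfv Y hY, he]⟩

/-- If there is a model of ZFC then there is a model of ZFC and the continuum hypothesis. -/
theorem exists_ch (M : Type u) [Membership M M] [IsZFC M] :
    ∃ (N : Type u) (_ : Membership N N), IsZFC N ∧ CH N := by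
  obtain ⟨N, iN, iZ, h⟩ := exists_diamond M
  exact ⟨N, iN, iZ, h.ch⟩

end Pool.Agent.FDia
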