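import Pool.Agent.Frc.Cover
import Pool.Agent.Forc.CardB
import Pool.Agent.Forc.LS1

/-!
# Countable partial diamond sequences

Conditions are the functions `p` on countable ordinals with `p β ⊆ β`, ordered by reverse
inclusion.
-/

universe u

set_option linter.unusedSectionVars false

namespace Pool.Agent.FDia

open Pool.Agent.SigB Pool.Agent.Forc Pool.Agent.Frc

variable {M : Type u} [Membership M M] [IsZFC M]

/-- The conditions. -/
noncomputable def cnd (w : M) : M :=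
  sp (pw (pd w (pw w))) fun p => ∃ α, α ∈ w ∧ Fn p α ∧ ∀ β, β ∈ α → Sb (ap p β) β

/-- Reverse inclusion. -/
noncomputable def cle (w : M) : M :=
  sp (pd (cnd w) (cnd w)) fun z => ∃ p q, z = op p q ∧ Sb q p

theorem cnd.dt : DT (fun w : Fin 1 → M => cnd (w 0)) := by
  unfold cnd; simp (maxDischargeDepth := 50)

@[simp] theorem dt_cnd {n : ℕ} {s : (Fin n → M) → M} (hs : DT s) : DT (fun v => cnd (s v)) :=
  dt1 cnd.dt hs

theorem cle.dt : DT (fun w : Fin 1 → M => cle (w 0)) := by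
  unfold cle; simp (maxDischargeDepth := 50)

@[simp] theorem dt_cle {n : ℕ} {s : (Fin n → M) → M} (hs : DT s) : DT (fun v => cle (s v)) :=
  dt1 cle.dt hs

theorem mem_cnd {w p : M} (hw : SigB.Ord w) :
    p ∈ cnd w ↔ ∃ α, α ∈ w ∧ Fn p α ∧ ∀ β, β ∈ α → Sb (ap p β) β := by
  have h1 : p ∈ cnd w ↔ p ∈ pw (pd w (pw w)) ∧
      ∃ α, α ∈ w ∧ Fn p α ∧ ∀ β, β ∈ α → Sb (ap p β) β :=
    mem_sp (by simp (maxDischargeDepth := 50))
  rw [h1, mem_pw]
  constructor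
  · exact fun h => h.2
  · rintro ⟨α, hα, hp, hv⟩
    refine ⟨fun z hz => ?_, α, hα, hp, hv⟩
    obtain ⟨x, hx, rfl⟩ := hp.mem_iff.1 hz
    have hxw := hw.trans hx hα
    exact op_mem_pd.2 ⟨hxw, mem_pw.2 ((hv x hx).trans (hw.sb hxw))⟩

theorem op_mem_cle {w p q : M} : op p q ∈ cle w ↔ (p ∈ cnd w ∧ q ∈ cnd w) ∧ Sb q p := by
  have h1 : op p q ∈ cle w ↔ op p q ∈ pd (cnd w) (cnd w) ∧
      ∃ p' q', op p q = op p' q' ∧ Sb q' p' := mem_sp (by simp (maxDischargeDepth := 50))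
  rw [h1, op_mem_pd]
  refine and_congr_right fun _ => ⟨?_, fun h => ⟨p, q, rfl, h⟩⟩
  rintro ⟨p', q', he, h⟩
  obtain ⟨rfl, rfl⟩ := op_inj.1 he
  exact h

/-- What is used about `ω₁`. -/
structure W1 (w : M) : Prop where
  ord : SigB.Ord w
  mem : ∀ b : M, SigB.Ord b → (b ∈ w ↔ Le b om)
  nle : ¬ Le w om

theorem exists_w1 : ∃ w : M, W1 w := by
  obtain ⟨w, hw, homw, hmem, hn, -⟩ := exists_succ (a := (SigB.om : M)) om_ord (Sb.refl _)
  exact ⟨w, hw, hmem, hn _ homw⟩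

section

variable {w : M} (hw : W1 w)

include hw

theorem W1.om_mem : (SigB.om : M) ∈ w := (hw.mem _ om_ord).2 (Le.refl _)

theorem W1.em_mem : (SigB.em : M) ∈ w := hw.ord.trans em_mem_om hw.om_mem

theorem W1.sc_mem {b : M} (hb : b ∈ w) : sc b ∈ w := by
  have hbo := hw.ord.mem hb
  refine (hw.mem _ (ord_sc hbo)).2 ?_
  exact le_om_un ((hw.mem b hbo).1 hb) (le_om_pr b b)

theorem W1.un_mem {a b : M} (ha : a ∈ w) (hb : b ∈ w) : un a b ∈ w := by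
  have hao := hw.ord.mem ha
  have hbo := hw.ord.mem hb
  exact (hw.mem _ (ord_un hao hbo)).2 (le_om_un ((hw.mem a hao).1 ha) ((hw.mem b hbo).1 hb))

theorem em_mem_cnd : (SigB.em : M) ∈ cnd w := by
  refine (mem_cnd hw.ord).2 ⟨SigB.em, hw.em_mem, ⟨fun z hz => absurd hz (not_mem_em z),
    fun x hx => absurd hx (not_mem_em x)⟩, fun x hx => absurd hx (not_mem_em x)⟩

theorem cPO : PO (cnd w) (cle w) (SigB.em : M) where
  sub _ _ h := (op_mem_cle.1 h).1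
  refl p hp := op_mem_cle.2 ⟨⟨hp, hp⟩, Sb.refl p⟩
  trans _ _ _ h h' := op_mem_cle.2 ⟨⟨(op_mem_cle.1 h).1.1, (op_mem_cle.1 h').1.2⟩,
    (op_mem_cle.1 h').2.trans (op_mem_cle.1 h).2⟩
  one_mem := em_mem_cnd hw
  top _ hp := op_mem_cle.2 ⟨⟨hp, em_mem_cnd hw⟩, fun z hz => absurd hz (not_mem_em z)⟩

/-- A condition with domain `α` can be extended by any value at `α`. -/
theorem exists_value {p α X : M} (hp : p ∈ cnd w) (hpα : Fn p α) (hα : α ∈ w)
    (hX : Sb X α) : ∃ q, op q p ∈ cle w ∧ op α X ∈ q := by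
  have hv : ∀ β, β ∈ α → Sb (ap p β) β := by
    obtain ⟨α', hα', hp', hv⟩ := (mem_cnd hw.ord).1 hp
    intro β hβ
    obtain ⟨y, hy, -⟩ := hpα.2 β hβ
    obtain ⟨x, hx, he⟩ := hp'.mem_iff.1 hy
    rw [(op_inj.1 he).1]
    exact hv x hx
  have hmem : ∀ x y, op x y ∈ un p (pr (op α X) (op α X)) ↔ op x y ∈ p ∨ (x = α ∧ y = X) := by
    intro x y
    rw [mem_un, mem_pr, or_self, op_inj]
  have hdom : ∀ x y, op x y ∈ p → x ∈ α := by
    intro x y h
    obtain ⟨x', hx', he⟩ := hpα.mem_iff.1 h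
    rw [(op_inj.1 he).1]; exact hx'
  have hfn : Fn (un p (pr (op α X) (op α X))) (sc α) := by
    constructor
    · intro z hz
      rcases mem_un.1 hz with h | h
      · obtain ⟨x, hx, y, rfl⟩ := hpα.1 z h
        exact ⟨x, mem_sc.2 (Or.inl hx), y, rfl⟩
      · rw [mem_pr, or_self] at h
        exact ⟨α, mem_sc_self α, X, h⟩
    · intro x hx
      rcases mem_sc.1 hx with h | rfl
      · obtain ⟨y, hy, hu⟩ := hpα.2 x h
        refine ⟨y, (hmem _ _).2 (Or.inl hy), fun y' hy' => ?_⟩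
        rcases (hmem _ _).1 hy' with h3 | ⟨h3, -⟩
        · exact hu y' h3
        · rw [h3] at h
          exact absurd h (not_mem_self α)
      · refine ⟨X, (hmem _ _).2 (Or.inr ⟨rfl, rfl⟩), fun y' hy' => ?_⟩
        rcases (hmem _ _).1 hy' with h3 | ⟨-, h3⟩
        · exact absurd (hdom _ _ h3) (not_mem_self x)
        · exact h3
  have hq : un p (pr (op α X) (op α X)) ∈ cnd w := by
    refine (mem_cnd hw.ord).2 ⟨sc α, hw.sc_mem hα, hfn, fun x hx => ?_⟩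
    have h3 := (hfn.op_mem_iff hx).2 rfl
    rcases (hmem _ _).1 h3 with h4 | ⟨h4, h5⟩
    · have h6 := hdom _ _ h4
      rw [← (hpα.op_mem_iff h6).1 h4]
      exact hv x h6
    · rw [h5, h4]; exact hX
  exact ⟨_, op_mem_cle.2 ⟨⟨hq, hp⟩, fun z hz => mem_un.2 (Or.inl hz)⟩,
    (hmem _ _).2 (Or.inr ⟨rfl, rfl⟩)⟩

/-- Every condition has an extension whose domain contains a given countable ordinal. -/
theorem exists_long {p δ : M} (hp : p ∈ cnd w) (hδ : δ ∈ w) :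
    ∃ q, op q p ∈ cle w ∧ ∃ α, α ∈ w ∧ Fn q α ∧ δ ∈ α := by
  classical
  obtain ⟨α, hα, hpα, hv⟩ := (mem_cnd hw.ord).1 hp
  let F : M → M := fun x => if x ∈ α then ap p x else SigB.em
  have hF : DT (fun w : Fin 1 → M => F (w 0)) :=
    DT.ite (P := fun w : Fin 1 → M => w 0 ∈ α) (by simp) (by simp) (by simp)
  have hα' : un α (sc δ) ∈ w := hw.un_mem hα (hw.sc_mem hδ)
  have hfn : Fn (lam (un α (sc δ)) F) (un α (sc δ)) := fn_lam hF
  refine ⟨lam (un α (sc δ)) F, op_mem_cle.2 ⟨⟨?_, hp⟩, ?_⟩, un α (sc δ), hα', hfn,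
    mem_un.2 (Or.inr (mem_sc_self δ))⟩
  · refine (mem_cnd hw.ord).2 ⟨_, hα', hfn, fun β hβ => ?_⟩
    rw [ap_lam hF hβ]
    by_cases h : β ∈ α
    · simp only [F, if_pos h]; exact hv β h
    · simp only [F, if_neg h]; exact fun z hz => absurd hz (not_mem_em z)
  · intro z hz
    obtain ⟨x, hx, rfl⟩ := hpα.mem_iff.1 hz
    refine (op_mem_lam hF).2 ⟨mem_un.2 (Or.inl hx), ?_⟩
    simp only [F, if_pos hx]

end

/-! ### Unions of chains -/

/-- The domain of a function. -/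
noncomputable def dm (p : M) : M := sp (sU (sU p)) fun x => ∃ y, op x y ∈ p

theorem dm.dt : DT (fun w : Fin 1 → M => dm (w 0)) := by
  unfold dm; simp (maxDischargeDepth := 50)

@[simp] theorem dt_dm {n : ℕ} {s : (Fin n → M) → M} (hs : DT s) : DT (fun v => dm (s v)) :=
  dt1 dm.dt hs

theorem mem_dm {p x : M} : x ∈ dm p ↔ ∃ y, op x y ∈ p := by
  have h1 : x ∈ dm p ↔ x ∈ sU (sU p) ∧ ∃ y, op x y ∈ p :=
    mem_sp (by simp (maxDischargeDepth := 50))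
  rw [h1]
  constructor
  · exact fun h => h.2
  · rintro ⟨y, hy⟩
    refine ⟨mem_sU.2 ⟨pr x y, mem_sU.2 ⟨op x y, hy, ?_⟩, by simp⟩, y, hy⟩
    unfold op; simp

theorem Fn.dm_eq {p α : M} (h : Fn p α) : dm p = α := by
  refine ext' fun x => ?_
  rw [mem_dm]
  constructor
  · rintro ⟨y, hy⟩
    obtain ⟨x', hx', he⟩ := h.mem_iff.1 hy
    rw [(op_inj.1 he).1]; exact hx'
  · intro hx
    obtain ⟨y, hy, -⟩ := h.2 x hx
    exact ⟨y, hy⟩

section

variable {w : M} (hw : W1 w)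

include hw

theorem dm_mem {p : M} (hp : p ∈ cnd w) : dm p ∈ w ∧ Fn p (dm p) := by
  obtain ⟨α, hα, hpα, -⟩ := (mem_cnd hw.ord).1 hp
  rw [Fn.dm_eq hpα]
  exact ⟨hα, hpα⟩

/-- The union of a descending sequence of conditions is a condition. -/
theorem exists_union {f : M} (hf : f ∈ fs SigB.om (cnd w))
    (hd : ∀ n, n ∈ (SigB.om : M) → op (ap f (sc n)) (ap f n) ∈ cle w) :
    ∃ u, u ∈ cnd w ∧ (∀ n, n ∈ (SigB.om : M) → op u (ap f n) ∈ cle w) ∧
      ∀ ξ, ξ ∈ dm u → ∃ n, n ∈ (SigB.om : M) ∧ ξ ∈ dm (ap f n) := by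
  have hfd : DT (fun w : Fin 1 → M => ap f (w 0)) := by simp (maxDischargeDepth := 50)
  have hfd' : DT (fun w : Fin 1 → M => dm (ap f (w 0))) := by simp (maxDischargeDepth := 50)
  have hfv := (mem_fs.1 hf).2
  -- monotonicity
  have hmono : ∀ m, m ∈ (SigB.om : M) → ∀ n, n ∈ m → Sb (ap f n) (ap f m) := by
    refine om_ind (P := fun m => ∀ n, n ∈ m → Sb (ap f n) (ap f m))
      (by simp (maxDischargeDepth := 50)) (fun n hn => absurd hn (not_mem_em n)) ?_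
    intro m hm ih n hn
    have h1 := (op_mem_cle.1 (hd m hm)).2
    rcases mem_sc.1 hn with h | rfl
    · exact (ih n h).trans h1
    · exact h1
  have hcmp : ∀ n m, n ∈ (SigB.om : M) → m ∈ (SigB.om : M) →
      Sb (ap f n) (ap f m) ∨ Sb (ap f m) (ap f n) := by
    intro n m hn hm
    rcases (ord_of_mem_om hn).tri (ord_of_mem_om hm) with h | h | h
    · exact Or.inl (hmono m hm n h)
    · rw [h]; exact Or.inl (Sb.refl _)
    · exact Or.inr (hmono n hn m h)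
  let u : M := sU (im SigB.om (fun n => ap f n))
  let β : M := sU (im SigB.om (fun n => dm (ap f n)))
  have hu : ∀ z, z ∈ u ↔ ∃ n, n ∈ (SigB.om : M) ∧ z ∈ ap f n := by
    intro z
    show z ∈ sU (im SigB.om (fun n => ap f n)) ↔ _
    rw [mem_sU]
    constructor
    · rintro ⟨y, hy, hz⟩
      obtain ⟨n, hn, rfl⟩ := (mem_im hfd).1 hy
      exact ⟨n, hn, hz⟩
    · rintro ⟨n, hn, hz⟩
      exact ⟨_, (mem_im hfd).2 ⟨n, hn, rfl⟩, hz⟩
  have hβ : ∀ z, z ∈ β ↔ ∃ n, n ∈ (SigB.om : M) ∧ z ∈ dm (ap f n) := by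
    intro z
    show z ∈ sU (im SigB.om (fun n => dm (ap f n))) ↔ _
    rw [mem_sU]
    constructor
    · rintro ⟨y, hy, hz⟩
      obtain ⟨n, hn, rfl⟩ := (mem_im hfd').1 hy
      exact ⟨n, hn, hz⟩
    · rintro ⟨n, hn, hz⟩
      exact ⟨_, (mem_im hfd').2 ⟨n, hn, rfl⟩, hz⟩
  have hX : ∀ x, x ∈ im (SigB.om : M) (fun n => dm (ap f n)) → x ∈ w := by
    intro x hx
    obtain ⟨n, hn, rfl⟩ := (mem_im hfd').1 hx
    exact (dm_mem hw (hfv n hn)).1
  have hβo : SigB.Ord β := ord_sU fun x hx => hw.ord.mem (hX x hx)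
  have hβw : β ∈ w := by
    refine (hw.mem _ hβo).2 (Le.union om_ord (Sb.refl _) (le_om_im (Le.refl _) hfd') ?_)
    exact fun x hx => (hw.mem x (hw.ord.mem (hX x hx))).1 (hX x hx)
  have hfn : Fn u β := by
    constructor
    · intro z hz
      obtain ⟨n, hn, hz⟩ := (hu z).1 hz
      obtain ⟨x, hx, y, rfl⟩ := (dm_mem hw (hfv n hn)).2.1 z hz
      exact ⟨x, (hβ x).2 ⟨n, hn, hx⟩, y, rfl⟩
    · intro x hx
      obtain ⟨n, hn, hx⟩ := (hβ x).1 hx
      obtain ⟨y, hy, -⟩ := (dm_mem hw (hfv n hn)).2.2 x hx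
      refine ⟨y, (hu _).2 ⟨n, hn, hy⟩, fun y' hy' => ?_⟩
      obtain ⟨m, hm, hy'⟩ := (hu _).1 hy'
      obtain ⟨k, hk, h1, h2⟩ : ∃ k, k ∈ (SigB.om : M) ∧ op x y ∈ ap f k ∧ op x y' ∈ ap f k := by
        rcases hcmp n m hn hm with h | h
        · exact ⟨m, hm, h _ hy, hy'⟩
        · exact ⟨n, hn, hy, h _ hy'⟩
      have h3 := (dm_mem hw (hfv k hk)).2
      have hxk : x ∈ dm (ap f k) := mem_dm.2 ⟨y, h1⟩
      rw [← (h3.op_mem_iff hxk).1 h1, ← (h3.op_mem_iff hxk).1 h2]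
  have huc : u ∈ cnd w := by
    refine (mem_cnd hw.ord).2 ⟨β, hβw, hfn, fun x hx => ?_⟩
    have h1 := (hfn.op_mem_iff hx).2 rfl
    obtain ⟨n, hn, h2⟩ := (hu _).1 h1
    obtain ⟨α, hα, h3, h4⟩ := (mem_cnd hw.ord).1 (hfv n hn)
    obtain ⟨x', hx', he⟩ := h3.mem_iff.1 h2
    obtain ⟨rfl, he'⟩ := op_inj.1 he
    rw [he']
    exact h4 x hx'
  refine ⟨u, huc, fun n hn => op_mem_cle.2 ⟨⟨huc, hfv n hn⟩, fun z hz => (hu z).2 ⟨n, hn, hz⟩⟩,
    fun ξ hξ => ?_⟩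
  rw [Fn.dm_eq hfn] at hξ
  exact (hβ ξ).1 hξ

end

/-! ### Descending sequences -/

/-- A descending sequence of conditions with prescribed steps. -/
theorem exists_seq {P le : M} (hsub : ∀ p q, op p q ∈ le → p ∈ P ∧ q ∈ P) {T : M → M → M → Prop}
    (hT : Dfn (fun w : Fin 3 → M => T (w 0) (w 1) (w 2)))
    (h : ∀ n, n ∈ (SigB.om : M) → ∀ q, q ∈ P → ∃ q', op q' q ∈ le ∧ T n q q') {q₀ : M}
    (hq₀ : q₀ ∈ P) : ∃ f, f ∈ fs SigB.om P ∧ ap f SigB.em = q₀ ∧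
      ∀ n, n ∈ (SigB.om : M) → op (ap f (sc n)) (ap f n) ∈ le ∧ T n (ap f n) (ap f (sc n)) := by
  have hT' : ∀ {n : ℕ} {s t r : (Fin n → M) → M}, DT s → DT t → DT r →
      Dfn fun v => T (s v) (t v) (r v) := fun hs ht hr => dfn3 hT hs ht hr
  obtain ⟨c, hc, hcs⟩ := choice' (a := pd SigB.om P) (b := P)
    (P := fun x y => ∀ n q, x = op n q → op y q ∈ le ∧ T n q y)
    (by simp (maxDischargeDepth := 50) [hT']) (by
      intro x hx
      obtain ⟨n, hn, q, hq, rfl⟩ := mem_pd.1 hx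
      obtain ⟨q', h1, h2⟩ := h n hn q hq
      refine ⟨q', (hsub _ _ h1).1, fun n' q'' he => ?_⟩
      obtain ⟨rfl, rfl⟩ := op_inj.1 he
      exact ⟨h1, h2⟩)
  obtain ⟨g, -, hg0, hg1⟩ := om_recursion (op SigB.em q₀)
    (G := fun z => op (sc (fst z)) (ap c z)) (by simp (maxDischargeDepth := 50))
  have key : ∀ n, n ∈ (SigB.om : M) → ∃ q, q ∈ P ∧ ap g n = op n q := by
    refine om_ind (P := fun n => ∃ q, q ∈ P ∧ ap g n = op n q)
      (by simp (maxDischargeDepth := 50)) ⟨q₀, hq₀, hg0⟩ ?_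
    rintro n hn ⟨q, hq, h1⟩
    refine ⟨ap c (op n q), (mem_fs.1 hc).2 _ (op_mem_pd.2 ⟨hn, hq⟩), ?_⟩
    rw [hg1 n hn, h1, fst_op]
  have hF : DT (fun w : Fin 1 → M => snd (ap g (w 0))) := by simp (maxDischargeDepth := 50)
  have hval : ∀ n q, n ∈ (SigB.om : M) → ap g n = op n q →
      ap (lam SigB.om (fun n => snd (ap g n))) n = q := by
    intro n q hn h1
    rw [ap_lam hF hn, h1, snd_op]
  refine ⟨lam SigB.om (fun n => snd (ap g n)), lam_mem_fs hF fun n hn => ?_,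
    hval _ _ em_mem_om hg0, fun n hn => ?_⟩
  · obtain ⟨q, hq, h1⟩ := key n hn
    rw [h1, snd_op]; exact hq
  · obtain ⟨q, hq, h1⟩ := key n hn
    have h2 : ap g (sc n) = op (sc n) (ap c (op n q)) := by rw [hg1 n hn, h1, fst_op]
    rw [hval n q hn h1, hval (sc n) _ (sc_mem_om hn) h2]
    exact hcs _ (op_mem_pd.2 ⟨hn, hq⟩) n q rfl

/-- Countably many open dense sets have a dense intersection. -/
theorem fusion {w : M} (hw : W1 w) {D : M → M → Prop}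
    (hD : Dfn (fun w : Fin 2 → M => D (w 0) (w 1)))
    (h : ∀ n, n ∈ (SigB.om : M) → ∀ q, q ∈ cnd w → ∃ q', op q' q ∈ cle w ∧ D n q')
    (hm : ∀ n q q', D n q → op q' q ∈ cle w → D n q') {q : M} (hq : q ∈ cnd w) :
    ∃ q', op q' q ∈ cle w ∧ ∀ n, n ∈ (SigB.om : M) → D n q' := by
  have hD' : ∀ {n : ℕ} {s t : (Fin n → M) → M}, DT s → DT t →
      Dfn fun v => D (s v) (t v) := fun hs ht => dfn2 hD hs ht
  obtain ⟨f, hf, hf0, hf1⟩ := exists_seq (P := cnd w) (le := cle w) (cPO hw).sub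
    (T := fun n _ q' => D n q') (by simp (maxDischargeDepth := 50) [hD']) h hq
  obtain ⟨u, hu, hle, -⟩ := exists_union hw hf fun n hn => (hf1 n hn).1
  refine ⟨u, ?_, fun n hn => hm _ _ _ (hf1 n hn).2 (hle _ (sc_mem_om hn))⟩
  have := hle _ em_mem_om
  rwa [hf0] at this

end Pool.Agent.FDia
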