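import Pool.Agent.Forc.Defs

/-!
Jensen's diamond principle, evaluated in a structure `(N, ∈)`.
-/

universe u

namespace Pool.Agent.FDia

open Pool.Agent.SigB Pool.Agent.Forc

variable {N : Type u} [Membership N N]

/-- `C` is a closed unbounded subset of the limit ordinal `w`: a subset of `w` with arbitrarily
large elements below `w`, which contains every nonzero `a ∈ w` such that the elements of `C` below
`a` are unbounded in `a`. -/
structure IsClub (C w : N) : Prop where
  sub : IsSub C w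
  unbounded : ∀ a, a ∈ w → ∃ b, b ∈ C ∧ a ∈ b
  closed : ∀ a, a ∈ w → (∃ b, b ∈ a) → (∀ b, b ∈ a → ∃ c, c ∈ C ∧ c ∈ a ∧ b ∈ c) → a ∈ C

variable (N) in
/-- Jensen's diamond principle in `(N, ∈)`: there are sets `A a ⊆ a` (`a ∈ ω₁`) such that for every
`S ⊆ ω₁` the set of all `a ∈ ω₁` with `S ∩ a = A a` is stationary, that is, it meets every closed
unbounded subset of `ω₁`. -/
def Diamond : Prop :=
  ∀ w : N, IsOmegaOne w → ∃ A p : N, IsMap A w p ∧ (∀ a X, Val A a X → IsSub X a) ∧
    ∀ S C, IsSub S w → IsClub C w →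
      ∃ a X, a ∈ C ∧ Val A a X ∧ ∀ z, z ∈ X ↔ z ∈ S ∧ z ∈ a

end Pool.Agent.FDia
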