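import Pool.Agent.FDia.Cond
import Pool.Agent.FDia.Defs
import Pool.Agent.Forc.Tr
import Pool.Agent.Forc.Loew
import Pool.Agent.Frc.Col
import Pool.Agent.Frc.Zfc
import Pool.Agent.Frc.Chang

/-!
# The extension by a generic diamond sequence
-/

universe u

set_option linter.unusedSectionVars false

namespace Pool.Agent.FDia

open Pool.Agent.SigB Pool.Agent.Forc Pool.Agent.Frc

section

variable {M : Type u} [Membership M M] [IsZFC M] {w : M} {G : M → Prop} {N : Type u}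
  [Membership N N] {val : M → N} [IsZFC N]

/-- `ω₁` remains uncountable. -/
theorem not_le_om (hw : W1 w) (hE : Ext (cnd w) (cle w) SigB.em G val) :
    ¬ Le (val (ck SigB.em w)) (SigB.om : N) := by
  rintro ⟨g, hg, hgi⟩
  obtain ⟨hg1, hg2⟩ := mem_fs.1 hg
  have hP := cPO hw
  obtain ⟨F, hF, hFP, hFm, hFd, hFt⟩ := hE.forcing2 (R := fun x y => op x y ∈ g)
    (by simp (maxDischargeDepth := 50))
  have hF' : ∀ {n : ℕ} {s t r : (Fin n → M) → M}, DT s → DT t → DT r →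
      Dfn fun v => F (s v) (t v) (r v) := fun hs ht hr => dfn3 hF hs ht hr
  let D : M → M → Prop := fun n q => (∃ α, α ∈ w ∧ F q (ck SigB.em α) (ck SigB.em n)) ∨
    ∀ r, op r q ∈ cle w → ∀ α, α ∈ w → ¬ F r (ck SigB.em α) (ck SigB.em n)
  have hD : Dfn (fun w : Fin 2 → M => D (w 0) (w 1)) := by
    simp (maxDischargeDepth := 50) [D, hF']
  have hD' : ∀ {n : ℕ} {s t : (Fin n → M) → M}, DT s → DT t →
      Dfn fun v => D (s v) (t v) := fun hs ht => dfn2 hD hs ht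
  -- a condition in the generic filter which decides the inverse images
  obtain ⟨q, hq, hDq⟩ := hE.gen.below hP (p := SigB.em)
    (Q := fun q => ∀ n, n ∈ (SigB.om : M) → D n q)
    (by simp (maxDischargeDepth := 50) [hD']) hE.gen.one (by
      intro q hq
      refine fusion hw hD ?_ ?_ (op_mem_cle.1 hq).1.1
      · intro n hn q hq
        by_cases h : ∃ q', op q' q ∈ cle w ∧ ∃ α, α ∈ w ∧ F q' (ck SigB.em α) (ck SigB.em n)
        · obtain ⟨q', h1, h2⟩ := h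
          exact ⟨q', h1, Or.inl h2⟩
        · push Not at h
          exact ⟨q, hP.refl _ hq, Or.inr h⟩
      · rintro n q q' (⟨α, hα, h⟩ | h) hq'
        · exact Or.inl ⟨α, hα, hFm _ _ _ _ h hq'⟩
        · exact Or.inr fun r hr => h r (hP.trans _ _ _ hr hq'))
  -- the injection in `M`
  obtain ⟨h, hh, hhs⟩ := choice' (a := w) (b := (SigB.om : M))
    (P := fun α n => F q (ck SigB.em α) (ck SigB.em n))
    (by simp (maxDischargeDepth := 50) [hF']) (by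
      intro α hα
      have hα' : val (ck SigB.em α) ∈ val (ck SigB.em w) := hE.cv_mem.2 hα
      have h1 := hg2 _ hα'
      rw [← hE.cv_om] at h1
      obtain ⟨n, hn, he⟩ := hE.mem_cv.1 h1
      have h2 := (hg1.op_mem_iff hα').2 he
      refine ⟨n, hn, ?_⟩
      obtain ⟨r, hr, hFr⟩ := (hFt _ _).1 h2
      rcases hDq n hn with ⟨α', hα1, h3⟩ | h3
      · have h4 : op (val (ck SigB.em α')) (val (ck SigB.em n)) ∈ g := (hFt _ _).2 ⟨q, hq, h3⟩
        have hα2 : val (ck SigB.em α') ∈ val (ck SigB.em w) := hE.cv_mem.2 hα1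
        have h5 : α = α' := by
          refine hE.cv_inj.1 (hgi _ _ hα' hα2 ?_)
          rw [(hg1.op_mem_iff hα').1 h2, (hg1.op_mem_iff hα2).1 h4]
        rw [h5]; exact h3
      · obtain ⟨s, -, hsr, hsq⟩ := hE.gen.dir r q hr hq
        exact absurd (hFm _ _ _ _ hFr hsr) (h3 s hsq α hα))
  refine hw.nle ⟨h, hh, fun α α' hα hα' he => ?_⟩
  have h1 : op (val (ck SigB.em α)) (val (ck SigB.em (ap h α))) ∈ g :=
    (hFt _ _).2 ⟨q, hq, hhs α hα⟩
  have h2 : op (val (ck SigB.em α')) (val (ck SigB.em (ap h α'))) ∈ g :=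
    (hFt _ _).2 ⟨q, hq, hhs α' hα'⟩
  rw [← he] at h2
  have hα1 : val (ck SigB.em α) ∈ val (ck SigB.em w) := hE.cv_mem.2 hα
  have hα2 : val (ck SigB.em α') ∈ val (ck SigB.em w) := hE.cv_mem.2 hα'
  refine hE.cv_inj.1 (hgi _ _ hα1 hα2 ?_)
  rw [(hg1.op_mem_iff hα1).1 h1, (hg1.op_mem_iff hα2).1 h2]

/-- `ω₁` of the extension. -/
theorem omegaOne_eq (hw : W1 w) (hE : Ext (cnd w) (cle w) SigB.em G val) {w' : N}
    (h : IsOmegaOne w') : w' = val (ck SigB.em w) := by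
  obtain ⟨h1, h2, h3⟩ := isOmegaOne_iff.1 h
  have h4 : SigB.Ord (val (ck SigB.em w)) := hE.cv_ord.2 hw.ord
  rcases h1.tri h4 with h5 | h5 | h5
  · obtain ⟨α, hα, rfl⟩ := hE.mem_cv.1 h5
    refine absurd ?_ h2
    have h6 := hE.cv_le ((hw.mem α (hw.ord.mem hα)).1 hα)
    rwa [hE.cv_om] at h6
  · exact h5
  · exact absurd (h3 _ h5) (not_le_om hw hE)

/-- The generic sequence. -/
noncomputable def gsq (w : M) (val : M → N) : N := sU (val (gname (cnd w) SigB.em))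

theorem mem_gsq (hw : W1 w) (hE : Ext (cnd w) (cle w) SigB.em G val) {x y : N} :
    op x y ∈ gsq w val ↔ ∃ p a b, G p ∧ op a b ∈ p ∧ x = val (ck SigB.em a) ∧
      y = val (ck SigB.em b) := by
  show op x y ∈ sU (val (gname (cnd w) SigB.em)) ↔ _
  rw [hE.mem_sU_gname]
  constructor
  · rintro ⟨p, z, hp, hz, he⟩
    obtain ⟨α, -, hpn, -⟩ := (mem_cnd hw.ord).1 (hE.gen.mem p hp)
    obtain ⟨a, -, b, rfl⟩ := hpn.1 z hz
    rw [hE.cv_op] at he
    obtain ⟨rfl, rfl⟩ := op_inj.1 he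
    exact ⟨p, a, b, hp, hz, rfl, rfl⟩
  · rintro ⟨p, a, b, hp, hab, rfl, rfl⟩
    exact ⟨p, op a b, hp, hab, (hE.cv_op a b).symm⟩

theorem gsq_mem (hw : W1 w) (hE : Ext (cnd w) (cle w) SigB.em G val) :
    gsq w val ∈ fs (val (ck SigB.em w)) (pw (val (ck SigB.em w))) := by
  have hP := cPO hw
  have hfun : ∀ x y y' : N, op x y ∈ gsq w val → op x y' ∈ gsq w val → y' = y := by
    intro x y y' h h'
    obtain ⟨p, a, b, hp, hab, rfl, rfl⟩ := (mem_gsq hw hE).1 h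
    obtain ⟨p', a', b', hp', hab', he, rfl⟩ := (mem_gsq hw hE).1 h'
    rw [hE.cv_inj] at he
    subst he
    obtain ⟨r, hr, hrp, hrp'⟩ := hE.gen.dir p p' hp hp'
    obtain ⟨-, hfn⟩ := dm_mem hw (hE.gen.mem r hr)
    have h1 := (op_mem_cle.1 hrp).2 _ hab
    have h2 := (op_mem_cle.1 hrp').2 _ hab'
    have hx : a ∈ dm r := mem_dm.2 ⟨b, h1⟩
    rw [← (hfn.op_mem_iff hx).1 h1, ← (hfn.op_mem_iff hx).1 h2]
  have hval : ∀ x y : N, op x y ∈ gsq w val → x ∈ val (ck SigB.em w) ∧ Sb y x := by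
    intro x y h
    obtain ⟨p, a, b, hp, hab, rfl, rfl⟩ := (mem_gsq hw hE).1 h
    obtain ⟨α, hα, hpn, hv⟩ := (mem_cnd hw.ord).1 (hE.gen.mem p hp)
    obtain ⟨x', hx', he⟩ := hpn.mem_iff.1 hab
    obtain ⟨rfl, rfl⟩ := op_inj.1 he
    exact ⟨hE.cv_mem.2 (hw.ord.trans hx' hα), hE.cv_sb.2 (hv _ hx')⟩
  have hdom : ∀ x, x ∈ val (ck SigB.em w) → ∃ y, op x y ∈ gsq w val := by
    intro x hx
    obtain ⟨δ, hδ, rfl⟩ := hE.mem_cv.1 hx
    obtain ⟨q, hq, α, -, hqα, hδα⟩ := hE.gen.below hP (p := SigB.em)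
      (Q := fun q => ∃ α, α ∈ w ∧ Fn q α ∧ δ ∈ α) (by simp (maxDischargeDepth := 50))
      hE.gen.one (fun q hq => by
        obtain ⟨q', h1, h2⟩ := exists_long hw (op_mem_cle.1 hq).1.1 hδ
        exact ⟨q', h1, h2⟩)
    obtain ⟨y, hy, -⟩ := hqα.2 δ hδα
    exact ⟨_, (mem_gsq hw hE).2 ⟨q, δ, y, hq, hy, rfl, rfl⟩⟩
  have hfn : Fn (gsq w val) (val (ck SigB.em w)) := by
    constructor
    · intro z hz
      obtain ⟨p, x, hp, hx, rfl⟩ := hE.mem_sU_gname.1 hz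
      obtain ⟨α, hα, hpn, -⟩ := (mem_cnd hw.ord).1 (hE.gen.mem p hp)
      obtain ⟨a, ha, b, rfl⟩ := hpn.1 x hx
      exact ⟨_, hE.cv_mem.2 (hw.ord.trans ha hα), _, hE.cv_op a b⟩
    · intro x hx
      obtain ⟨y, hy⟩ := hdom x hx
      exact ⟨y, hy, fun y' hy' => hfun _ _ _ hy hy'⟩
  refine mem_fs.2 ⟨hfn, fun x hx => ?_⟩
  obtain ⟨h1, h2⟩ := hval _ _ ((hfn.op_mem_iff hx).2 rfl)
  exact mem_pw.2 (h2.trans ((hE.cv_ord.2 hw.ord).sb h1))

/-- The generic sequence guesses the subsets of `ω₁` on the elements of closed unbounded sets. -/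
theorem guess (hw : W1 w) (hE : Ext (cnd w) (cle w) SigB.em G val) {S C : N}
    (hC : IsClub C (val (ck SigB.em w))) :
    ∃ a X, a ∈ C ∧ op a X ∈ gsq w val ∧ ∀ z, z ∈ X ↔ z ∈ S ∧ z ∈ a := by
  have hP := cPO hw
  obtain ⟨F, hF, hFP, hFm, hFd, hFt⟩ := hE.forcing1 (R := fun x => x ∈ S)
    (by simp (maxDischargeDepth := 50))
  obtain ⟨K, hK, hKP, hKm, hKd, hKt⟩ := hE.forcing1 (R := fun x => x ∈ C)
    (by simp (maxDischargeDepth := 50))
  have hF' : ∀ {n : ℕ} {s t : (Fin n → M) → M}, DT s → DT t →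
      Dfn fun v => F (s v) (t v) := fun hs ht => dfn2 hF hs ht
  have hK' : ∀ {n : ℕ} {s t : (Fin n → M) → M}, DT s → DT t →
      Dfn fun v => K (s v) (t v) := fun hs ht => dfn2 hK hs ht
  -- a condition which forces that `C` is unbounded
  let U : M → Prop := fun q => ∀ r, op r q ∈ cle w → ∀ γ, γ ∈ w →
    ∃ s, op s r ∈ cle w ∧ ∃ δ, δ ∈ w ∧ γ ∈ δ ∧ K s (ck SigB.em δ)
  have hU : Dfn (fun w : Fin 1 → M => U (w 0)) := by
    simp (maxDischargeDepth := 50) [U, hK']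
  have hU' : ∀ {n : ℕ} {s : (Fin n → M) → M}, DT s → Dfn fun v => U (s v) :=
    fun hs => dfn1 hU hs
  obtain ⟨p₀, hp₀, hUp₀⟩ : ∃ p, G p ∧ U p := by
    obtain ⟨p, hp, h1⟩ := hE.gen.below hP (p := SigB.em)
      (Q := fun q => U q ∨ ∃ γ, γ ∈ w ∧ ∀ s, op s q ∈ cle w → ∀ δ, δ ∈ w → γ ∈ δ →
        ¬ K s (ck SigB.em δ)) (by simp (maxDischargeDepth := 50) [hU', hK']) hE.gen.one (by
        intro q hq
        by_cases h : U q
        · exact ⟨q, hP.refl _ (op_mem_cle.1 hq).1.1, Or.inl h⟩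
        · simp only [U] at h
          push Not at h
          obtain ⟨r, hr, γ, hγ, h⟩ := h
          exact ⟨r, hr, Or.inr ⟨γ, hγ, h⟩⟩)
    rcases h1 with h1 | ⟨γ, hγ, h1⟩
    · exact ⟨p, hp, h1⟩
    · exfalso
      obtain ⟨b, hb, hγb⟩ := hC.unbounded (val (ck SigB.em γ)) (hE.cv_mem.2 hγ)
      obtain ⟨δ, hδ, rfl⟩ := hE.mem_cv.1 (hC.sub b hb)
      obtain ⟨r, hr, hKr⟩ := (hKt _).1 hb
      obtain ⟨s, -, hsp, hsr⟩ := hE.gen.dir p r hp hr
      exact h1 s hsp δ hδ (hE.cv_mem.1 hγb) (hKm _ _ _ hKr hsr)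
  -- conditions which decide `S` below `dm q`
  let D : M → M → Prop := fun q q' => ∀ ξ, ξ ∈ dm q → F q' (ck SigB.em ξ) ∨
    ∀ r, op r q' ∈ cle w → ¬ F r (ck SigB.em ξ)
  have hD : Dfn (fun w : Fin 2 → M => D (w 0) (w 1)) := by
    simp (maxDischargeDepth := 50) [D, hF']
  have hD' : ∀ {n : ℕ} {s t : (Fin n → M) → M}, DT s → DT t →
      Dfn fun v => D (s v) (t v) := fun hs ht => dfn2 hD hs ht
  have hDm : ∀ q q' r, D q q' → op r q' ∈ cle w → D q r := by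
    intro q q' r h hr ξ hξ
    rcases h ξ hξ with h1 | h1
    · exact Or.inl (hFm _ _ _ h1 hr)
    · exact Or.inr fun s hs => h1 s (hP.trans _ _ _ hs hr)
  have hdec : ∀ q, q ∈ cnd w → ∃ q', op q' q ∈ cle w ∧ D q q' := by
    intro q hq
    obtain ⟨hdm, hqf⟩ := dm_mem hw hq
    obtain ⟨i, hi, hii⟩ := (hw.mem _ (hw.ord.mem hdm)).1 hdm
    obtain ⟨q', h1, h2⟩ := fusion hw (D := fun n q' => ∀ ξ, ξ ∈ dm q → ap i ξ = n →
      (F q' (ck SigB.em ξ) ∨ ∀ r, op r q' ∈ cle w → ¬ F r (ck SigB.em ξ)))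
      (by simp (maxDischargeDepth := 50) [hF']) (by
        intro n hn r hr
        by_cases h : ∃ ξ, ξ ∈ dm q ∧ ap i ξ = n
        · obtain ⟨ξ, hξ, hn'⟩ := h
          have huniq : ∀ ξ', ξ' ∈ dm q → ap i ξ' = n → ξ' = ξ := fun ξ' h1 h2 =>
            hii _ _ h1 hξ (by rw [h2, hn'])
          by_cases h' : ∃ s, op s r ∈ cle w ∧ F s (ck SigB.em ξ)
          · obtain ⟨s, hs, hFs⟩ := h'
            refine ⟨s, hs, fun ξ' h1 h2 => ?_⟩
            rw [huniq ξ' h1 h2]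
            exact Or.inl hFs
          · push Not at h'
            refine ⟨r, hP.refl _ hr, fun ξ' h1 h2 => ?_⟩
            rw [huniq ξ' h1 h2]
            exact Or.inr h'
        · push Not at h
          exact ⟨r, hP.refl _ hr, fun ξ h1 h2 => absurd h2 (h ξ h1)⟩) (by
        intro n r r' h hr ξ hξ hn
        rcases h ξ hξ hn with h1 | h1
        · exact Or.inl (hFm _ _ _ h1 hr)
        · exact Or.inr fun s hs => h1 s (hP.trans _ _ _ hs hr)) hq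
    exact ⟨q', h1, fun ξ hξ => h2 _ ((mem_fs.1 hi).2 ξ hξ) ξ hξ rfl⟩
  -- the step of the construction
  let T : M → M → Prop := fun q q' => D q q' ∧ ∃ δ, δ ∈ dm q' ∧ Sb (dm q) δ ∧ K q' (ck SigB.em δ)
  have hT : Dfn (fun w : Fin 2 → M => T (w 0) (w 1)) := by
    simp (maxDischargeDepth := 50) [T, hD', hK']
  have hT' : ∀ {n : ℕ} {s t : (Fin n → M) → M}, DT s → DT t →
      Dfn fun v => T (s v) (t v) := fun hs ht => dfn2 hT hs ht
  have hstep : ∀ q, op q p₀ ∈ cle w → ∃ q', op q' q ∈ cle w ∧ T q q' := by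
    intro q hq
    have hqc := (op_mem_cle.1 hq).1.1
    obtain ⟨hdm, -⟩ := dm_mem hw hqc
    obtain ⟨q₁, h1, h2⟩ := hdec q hqc
    obtain ⟨q₂, h3, δ, hδ, hδ', h4⟩ := hUp₀ q₁ (hP.trans _ _ _ h1 hq) (dm q) hdm
    obtain ⟨q₃, h5, α, -, h6, h7⟩ := exists_long hw (op_mem_cle.1 h3).1.1 hδ
    refine ⟨q₃, hP.trans _ _ _ h5 (hP.trans _ _ _ h3 h1),
      hDm _ _ _ h2 (hP.trans _ _ _ h5 h3), δ, ?_, (hw.ord.mem hδ).sb hδ', hKm _ _ _ h4 h5⟩
    rw [Fn.dm_eq h6]; exact h7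
  -- the conditions which guess correctly
  let E : M → Prop := fun q => ∃ β X, op β X ∈ q ∧ (∃ b, b ∈ β) ∧
    (∀ γ, γ ∈ β → ∃ δ, δ ∈ β ∧ γ ∈ δ ∧ K q (ck SigB.em δ)) ∧
    ∀ ξ, ξ ∈ β → (ξ ∈ X → F q (ck SigB.em ξ)) ∧
      (ξ ∉ X → ∀ r, op r q ∈ cle w → ¬ F r (ck SigB.em ξ))
  have hEd : Dfn (fun w : Fin 1 → M => E (w 0)) := by
    simp (maxDischargeDepth := 50) [E, hF', hK']
  obtain ⟨q, hq, β, X, hβX, hne, hlim, hX⟩ := hE.gen.below hP hEd hp₀ (by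
    intro q₀ hq₀
    have hq₀c := (op_mem_cle.1 hq₀).1.1
    obtain ⟨f, hf, hf0, hf1⟩ := exists_seq (P := sp (cnd w) fun q => op q p₀ ∈ cle w)
      (le := sp (cle w) fun z => ∃ p q, z = op p q ∧ op q p₀ ∈ cle w) (by
        intro p q h
        rw [mem_sp (by simp (maxDischargeDepth := 50))] at h
        obtain ⟨h1, p', q', he, h2⟩ := h
        obtain ⟨rfl, rfl⟩ := op_inj.1 he
        rw [mem_sp (by simp (maxDischargeDepth := 50)), mem_sp (by simp (maxDischargeDepth := 50))]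
        exact ⟨⟨(op_mem_cle.1 h1).1.1, hP.trans _ _ _ h1 h2⟩, (op_mem_cle.1 h1).1.2, h2⟩)
      (T := fun _ q q' => T q q') (by simp (maxDischargeDepth := 50) [hT']) (by
        intro n hn q hq
        rw [mem_sp (by simp (maxDischargeDepth := 50))] at hq
        obtain ⟨q', h1, h2⟩ := hstep q hq.2
        refine ⟨q', ?_, h2⟩
        rw [mem_sp (by simp (maxDischargeDepth := 50))]
        exact ⟨h1, q', q, rfl, hq.2⟩) (q₀ := q₀) (by
        rw [mem_sp (by simp (maxDischargeDepth := 50))]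
        exact ⟨hq₀c, hq₀⟩)
    have hf' : f ∈ fs SigB.om (cnd w) := by
      refine mem_fs.2 ⟨(mem_fs.1 hf).1, fun n hn => ?_⟩
      have h1 := (mem_fs.1 hf).2 n hn
      rw [mem_sp (by simp (maxDischargeDepth := 50))] at h1
      exact h1.1
    have hd : ∀ n, n ∈ (SigB.om : M) → op (ap f (sc n)) (ap f n) ∈ cle w := by
      intro n hn
      have h1 := (hf1 n hn).1
      rw [mem_sp (by simp (maxDischargeDepth := 50))] at h1
      exact h1.1
    obtain ⟨u, hu, hle, hdu⟩ := exists_union hw hf' hd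
    obtain ⟨huw, huf⟩ := dm_mem hw hu
    have hYd : Dfn (fun v : Fin 1 → M =>
        ∃ n, n ∈ (SigB.om : M) ∧ F (ap f n) (ck SigB.em (v 0))) := by
      simp (maxDischargeDepth := 50) [hF']
    obtain ⟨s, hs, hsX⟩ := exists_value hw hu huf huw
      (X := sp (dm u) fun ξ => ∃ n, n ∈ (SigB.om : M) ∧ F (ap f n) (ck SigB.em ξ))
      (fun z hz => ((mem_sp hYd).1 hz).1)
    have hsf : ∀ n, n ∈ (SigB.om : M) → op s (ap f n) ∈ cle w := fun n hn =>
      hP.trans _ _ _ hs (hle n hn)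
    have hdsub : ∀ n, n ∈ (SigB.om : M) → Sb (dm (ap f n)) (dm u) := by
      intro n hn x hx
      obtain ⟨y, hy⟩ := mem_dm.1 hx
      exact mem_dm.2 ⟨y, (op_mem_cle.1 (hle n hn)).2 _ hy⟩
    refine ⟨s, ?_, dm u, _, hsX, ?_, ?_, ?_⟩
    · have := hsf _ em_mem_om
      rwa [hf0] at this
    · obtain ⟨-, δ, hδ, -, -⟩ := (hf1 _ em_mem_om).2
      exact ⟨δ, hdsub _ (sc_mem_om em_mem_om) δ hδ⟩
    · intro γ hγ
      obtain ⟨n, hn, hγn⟩ := hdu γ hγ
      obtain ⟨-, δ, hδ, hδ', hK1⟩ := (hf1 n hn).2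
      exact ⟨δ, hdsub _ (sc_mem_om hn) δ hδ, hδ' _ hγn, hKm _ _ _ hK1 (hsf _ (sc_mem_om hn))⟩
    · intro ξ hξ
      rw [mem_sp hYd]
      constructor
      · rintro ⟨-, n, hn, h1⟩
        exact hFm _ _ _ h1 (hsf n hn)
      · intro h1 r hr h2
        obtain ⟨n, hn, hξn⟩ := hdu ξ hξ
        rcases (hf1 n hn).2.1 ξ hξn with h3 | h3
        · exact h1 ⟨hξ, _, sc_mem_om hn, h3⟩
        · exact h3 r (hP.trans _ _ _ hr (hsf _ (sc_mem_om hn))) h2)
  -- the guess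
  have hqc := hE.gen.mem q hq
  obtain ⟨α, hα, hqα, hv⟩ := (mem_cnd hw.ord).1 hqc
  have hβα : β ∈ α := by
    obtain ⟨x, hx, he⟩ := hqα.mem_iff.1 hβX
    rw [(op_inj.1 he).1]; exact hx
  have hXβ : Sb X β := by
    rw [← (hqα.op_mem_iff hβα).1 hβX]
    exact hv β hβα
  have hβw := hw.ord.trans hβα hα
  refine ⟨val (ck SigB.em β), val (ck SigB.em X), ?_, (mem_gsq hw hE).2 ⟨q, β, X, hq, hβX, rfl, rfl⟩,
    fun z => ?_⟩
  · refine hC.closed _ (hE.cv_mem.2 hβw) ?_ ?_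
    · obtain ⟨b, hb⟩ := hne
      exact ⟨_, hE.cv_mem.2 hb⟩
    · intro b hb
      obtain ⟨γ, hγ, rfl⟩ := hE.mem_cv.1 hb
      obtain ⟨δ, hδ, hγδ, h1⟩ := hlim γ hγ
      exact ⟨_, (hKt _).2 ⟨q, hq, h1⟩, hE.cv_mem.2 hδ, hE.cv_mem.2 hγδ⟩
  · constructor
    · intro hz
      obtain ⟨ξ, hξ, rfl⟩ := hE.mem_cv.1 hz
      have hξβ := hXβ ξ hξ
      exact ⟨(hFt _).2 ⟨q, hq, (hX ξ hξβ).1 hξ⟩, hE.cv_mem.2 hξβ⟩
    · rintro ⟨hz, hzβ⟩
      obtain ⟨ξ, hξ, rfl⟩ := hE.mem_cv.1 hzβ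
      rw [hE.cv_mem]
      by_contra hn
      obtain ⟨r, hr, h1⟩ := (hFt _).1 hz
      obtain ⟨s, -, hsr, hsq⟩ := hE.gen.dir r q hr hq
      exact (hX ξ hξ).2 hn s hsq (hFm _ _ _ h1 hsr)

/-- The diamond principle in the extension. -/
theorem diamond (hw : W1 w) (hE : Ext (cnd w) (cle w) SigB.em G val) : Diamond N := by
  intro w' hw'
  rw [omegaOne_eq hw hE hw']
  have hm := gsq_mem hw hE
  refine ⟨gsq w val, pw (val (ck SigB.em w)), isMap_iff.2 hm, fun a X h => ?_,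
    fun S C _ hC => ?_⟩
  · obtain ⟨p, a', b, hp, hab, rfl, rfl⟩ := (mem_gsq hw hE).1 (val_iff.1 h)
    obtain ⟨α, hα, hpn, hv⟩ := (mem_cnd hw.ord).1 (hE.gen.mem p hp)
    obtain ⟨x', hx', he⟩ := hpn.mem_iff.1 hab
    obtain ⟨rfl, rfl⟩ := op_inj.1 he
    exact hE.cv_sb.2 (hv _ hx')
  · obtain ⟨a, X, h1, h2, h3⟩ := guess hw hE (S := S) hC
    exact ⟨a, X, h1, val_iff.2 h2, h3⟩

end

/-! ### The theorem -/

/-- Countable elementary submodels. -/
theorem exists_countable (M : Type u) [Membership M M] [IsZFC M] :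
    ∃ (M₀ : Type u) (_ : Membership M₀ M₀), IsZFC M₀ ∧ Countable M₀ := by
  have hne : Nonempty M := ⟨(exists_em (M := M)).choose⟩
  obtain ⟨S, hc, -, hS'⟩ := exists_full (M := M)
  let inst : Membership S S := subMem S
  have h1 := transferZ (M := M) (M₀ := S) (j := Subtype.val) (fun {p₀ p} h => hS'.closed h)
  exact ⟨S, subMem S, h1, hc.to_subtype⟩

/-- If there is a model of ZFC then there is a model of ZFC and the diamond principle. -/
theorem exists_diamond (M : Type u) [Membership M M] [IsZFC M] :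
    ∃ (N : Type u) (_ : Membership N N), IsZFC N ∧ Diamond N := by
  obtain ⟨M₀, i₀, iz₀, hc⟩ := exists_countable M
  obtain ⟨w, hw⟩ := exists_w1 (M := M₀)
  obtain ⟨G, hGen, -⟩ := exists_gen (cPO hw) (em_mem_cnd hw)
  obtain ⟨N, iN, val, hE⟩ := exists_ext (cPO hw) hGen
  have iZ : IsZFC N := hE.isZFC
  exact ⟨N, iN, iZ, diamond hw hE⟩

end Pool.Agent.FDia
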